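import Pool.Agent.H94.C1.Targets

/-!
FLB: energy on the graph of a bounded function with gradient at most one.
-/

set_option autoImplicit false

namespace Pool.Agent.H1.C1

open MeasureTheory Set FourierTransform Pool.Agent.H82.KL Pool.Agent.H94.C1
open scoped ENNReal NNReal SchwartzMap

theorem sum_sq_le {d : ℕ} (T : EE d →L[ℝ] ℝ) (hT : ‖T‖ ≤ 1) : ∑ j, (T (ei j)) ^ 2 ≤ 1 := by
  set v : EE d := ∑ j, T (ei j) • ei j with hv
  have hvi : ∀ i, v i = T (ei i) := by
    intro i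
    rw [hv]
    simp [Pi.single_apply]
  have h1 : T v = ∑ j, (T (ei j)) ^ 2 := by
    rw [hv, map_sum]
    refine Finset.sum_congr rfl fun j _ => ?_
    rw [map_smul, smul_eq_mul, pow_two]
  have h2 : ‖v‖ ^ 2 = ∑ j, (T (ei j)) ^ 2 := by
    rw [EuclideanSpace.norm_sq_eq]
    refine Finset.sum_congr rfl fun j _ => ?_
    rw [hvi, Real.norm_eq_abs, sq_abs]
  have h3 : T v ≤ ‖v‖ := by
    refine (le_abs_self _).trans ?_
    rw [← Real.norm_eq_abs]
    refine (T.le_opNorm v).trans ?_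
    exact mul_le_of_le_one_left (norm_nonneg _) hT
  rw [h1, ← h2] at h3
  rw [← h2]
  have h4 := norm_nonneg v
  have h5 : ‖v‖ ≤ 1 := by
    by_contra hcon
    push Not at hcon
    nlinarith
  nlinarith

theorem gr_onG {d : ℕ} (hD : T_DIF) (b : EE d → ℂ) (hb : Sym b) (φ : EE d → ℝ)
    (hφ : ContDiff ℝ 1 φ) (x : EE d) :
    gr (onG b φ) x = 4 * Real.pi ^ 2 * (∑ j, ‖U (mc j b) (x, φ x)‖ ^ 2 +
      (∑ j, (fderiv ℝ φ x (ei j)) ^ 2) * ‖U (mn b) (x, φ x)‖ ^ 2 +
      ∑ j, fderiv ℝ φ x (ei j) * mo b j (x, φ x)) := by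
  obtain ⟨hU, hd⟩ := hD d b hb
  have hφ' : DifferentiableAt ℝ φ x := (hφ.differentiable one_ne_zero) x
  have hU' : DifferentiableAt ℝ (U b) (x, φ x) := (hU.differentiable one_ne_zero) _
  have hf : ∀ v : EE d, fderiv ℝ (onG b φ) x v = fderiv ℝ (U b) (x, φ x) (v, fderiv ℝ φ x v) := by
    intro v
    have h1 : HasFDerivAt (fun y : EE d => (y, φ y))
        ((ContinuousLinearMap.id ℝ (EE d)).prod (fderiv ℝ φ x)) x :=
      (hasFDerivAt_id x).prodMk hφ'.hasFDerivAt
    have h2 := hU'.hasFDerivAt.comp x h1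
    have h3 : fderiv ℝ (onG b φ) x = (fderiv ℝ (U b) (x, φ x)).comp
        ((ContinuousLinearMap.id ℝ (EE d)).prod (fderiv ℝ φ x)) := h2.fderiv
    rw [h3]
    rfl
  have hj : ∀ j, fderiv ℝ (onG b φ) x (ei j) = 2 * (Real.pi : ℂ) * Complex.I *
      (U (mc j b) (x, φ x) + ((fderiv ℝ φ x (ei j) : ℝ) : ℂ) * U (mn b) (x, φ x)) := by
    intro j
    rw [hf, hd]
    congr 2
    rw [Finset.sum_eq_single j]
    · simp
    · intro k _ hk
      simp [hk]
    · intro h
      exact absurd (Finset.mem_univ _) h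
  unfold gr
  have hn : ∀ j, ‖fderiv ℝ (onG b φ) x (ei j)‖ ^ 2 = 4 * Real.pi ^ 2 *
      (‖U (mc j b) (x, φ x)‖ ^ 2 + (fderiv ℝ φ x (ei j)) ^ 2 * ‖U (mn b) (x, φ x)‖ ^ 2 +
        fderiv ℝ φ x (ei j) * mo b j (x, φ x)) := by
    intro j
    rw [hj, norm_mul, mul_pow]
    have h1 : ‖(2 * (Real.pi : ℂ) * Complex.I : ℂ)‖ ^ 2 = 4 * Real.pi ^ 2 := by
      rw [norm_mul, norm_mul, Complex.norm_I, Complex.norm_real, Real.norm_eq_abs]
      simp only [Complex.norm_ofNat, mul_one, mul_pow, sq_abs]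
      norm_num
    rw [h1]
    congr 1
    unfold mo
    generalize U (mc j b) (x, φ x) = A
    generalize U (mn b) (x, φ x) = B
    generalize fderiv ℝ φ x (ei j) = s
    rw [← Complex.normSq_eq_norm_sq, ← Complex.normSq_eq_norm_sq, ← Complex.normSq_eq_norm_sq,
      Complex.normSq_apply, Complex.normSq_apply, Complex.normSq_apply]
    simp only [Complex.add_re, Complex.add_im, Complex.mul_re, Complex.mul_im, Complex.ofReal_re,
      Complex.ofReal_im, Complex.conj_re, Complex.conj_im]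
    ring
  simp only [hn]
  rw [← Finset.mul_sum, Finset.sum_add_distrib, Finset.sum_add_distrib, ← Finset.sum_mul]

theorem pf_FLB (hS : T_SYM) (hD : T_DIF) (hP : T_PLU) (hF : T_FLA) : T_FLB := by
  intro d b φ B hd hb hφ hφB hφ1
  obtain ⟨hI, hE⟩ := hF d b φ B hd hb hφ hφB hφ1
  obtain ⟨hmc, hmn, -⟩ := hS d b hb
  have hle : ∀ x, gr (onG b φ) x ≤ 4 * Real.pi ^ 2 * fl b φ 1 x := by
    intro x
    rw [gr_onG hD b hb φ hφ x]
    refine mul_le_mul_of_nonneg_left ?_ (by positivity)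
    unfold fl en
    rw [one_mul, one_mul]
    have h1 := sum_sq_le (fderiv ℝ φ x) (hφ1 x)
    have h2 : (∑ j, (fderiv ℝ φ x (ei j)) ^ 2) * ‖U (mn b) (x, φ x)‖ ^ 2 ≤
        ‖U (mn b) (x, φ x)‖ ^ 2 := mul_le_of_le_one_left (by positivity) h1
    linarith
  have hgr : ∀ x, 0 ≤ gr (onG b φ) x := fun x => Finset.sum_nonneg fun j _ => by positivity
  have hfl : ∀ x, 0 ≤ fl b φ 1 x := by
    intro x
    have h1 := (hgr x).trans (hle x)
    exact nonneg_of_mul_nonneg_right h1 (by positivity)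
  have hfl0 : ∀ x, fl b φ 0 x = en b (x, 0) := by
    intro x
    unfold fl
    rw [zero_mul, zero_mul, add_zero]
  have hcU : ∀ c : EE d → ℂ, Sym c → Continuous (fun x : EE d => U c (x, 0)) := fun c hc =>
    (hD d c hc).1.continuous.comp (by fun_prop)
  have hen : ∀ x : EE d, ENNReal.ofReal (en b (x, 0)) = ‖U (mn b) (x, 0)‖ₑ ^ 2 +
      ∑ j, ‖U (mc j b) (x, 0)‖ₑ ^ 2 := by
    intro x
    unfold en
    rw [ENNReal.ofReal_add (by positivity) (Finset.sum_nonneg fun j _ => by positivity),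
      ENNReal.ofReal_sum_of_nonneg (fun j _ => by positivity)]
    simp only [ENNReal.ofReal_pow (norm_nonneg _), ofReal_norm_eq_enorm]
  have henn : ∀ x : EE d, 0 ≤ en b (x, 0) := fun x => by
    unfold en
    exact add_nonneg (by positivity) (Finset.sum_nonneg fun j _ => by positivity)
  have hcen : Continuous (fun x : EE d => en b (x, 0)) := by
    unfold en
    exact ((hcU _ hmn).norm.pow 2).add (continuous_finsetSum _ fun j _ => (hcU _ (hmc j)).norm.pow 2)
  have hmm : ∀ ξ : EE d, ∑ j, ‖mc j b ξ‖ₑ ^ 2 = ‖mn b ξ‖ₑ ^ 2 := by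
    intro ξ
    have h1 : ∀ z : ℂ, ‖z‖ₑ ^ 2 = ENNReal.ofReal (‖z‖ ^ 2) := fun z => by
      rw [ENNReal.ofReal_pow (norm_nonneg _), ofReal_norm_eq_enorm]
    simp only [h1]
    rw [← ENNReal.ofReal_sum_of_nonneg (fun j _ => by positivity)]
    congr 1
    unfold mc mn
    simp only [norm_mul, mul_pow, Complex.norm_real, Real.norm_eq_abs, sq_abs]
    rw [← Finset.sum_mul, EuclideanSpace.norm_sq_eq]
    simp only [Real.norm_eq_abs, sq_abs]
  calc ∫⁻ x, ENNReal.ofReal (gr (onG b φ) x)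
      ≤ ∫⁻ x, ENNReal.ofReal (4 * Real.pi ^ 2 * fl b φ 1 x) :=
        lintegral_mono fun x => ENNReal.ofReal_le_ofReal (hle x)
    _ = ENNReal.ofReal (∫ x, 4 * Real.pi ^ 2 * fl b φ 1 x) :=
        (ofReal_integral_eq_lintegral_ofReal (hI.const_mul _)
          (Filter.Eventually.of_forall fun x => mul_nonneg (by positivity) (hfl x))).symm
    _ = ENNReal.ofReal (4 * Real.pi ^ 2) * ENNReal.ofReal (∫ x, en b (x, 0)) := by
        rw [integral_const_mul, hE, ENNReal.ofReal_mul (by positivity)]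
        simp only [hfl0]
    _ ≤ ENNReal.ofReal (4 * Real.pi ^ 2) * ∫⁻ x : EE d, ENNReal.ofReal (en b (x, 0)) := by
        refine mul_le_mul_right ?_ _
        rw [integral_eq_lintegral_of_nonneg_ae (Filter.Eventually.of_forall henn)
          hcen.aestronglyMeasurable]
        exact ENNReal.ofReal_toReal_le
    _ = ENNReal.ofReal (4 * Real.pi ^ 2) * ((∫⁻ ξ, ‖mn b ξ‖ₑ ^ 2) + (∫⁻ ξ, ‖mn b ξ‖ₑ ^ 2)) := by
        congr 1
        simp only [hen]
        rw [lintegral_add_left ((hcU _ hmn).enorm.measurable.pow_const 2),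
          lintegral_finsetSum _ (fun j _ => (hcU _ (hmc j)).enorm.measurable.pow_const 2),
          hP d _ 0 hmn]
        congr 1
        simp only [hP d _ 0 (hmc _)]
        rw [← lintegral_finsetSum _ (fun j _ => (hmc j).1.continuous.enorm.measurable.pow_const 2)]
        simp only [hmm]
    _ = ENNReal.ofReal (8 * Real.pi ^ 2) * ∫⁻ ξ, ‖mn b ξ‖ₑ ^ 2 := by
        have h8 : ENNReal.ofReal (8 * Real.pi ^ 2) = ENNReal.ofReal (4 * Real.pi ^ 2) * 2 := by
          rw [show (8 : ℝ) * Real.pi ^ 2 = 4 * Real.pi ^ 2 * 2 by ring,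
            ENNReal.ofReal_mul (by positivity), ENNReal.ofReal_ofNat]
        rw [← two_mul, ← mul_assoc, h8]

end Pool.Agent.H1.C1
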