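import Pool.Agent.H94.C1.Targets

/-!
PLU: Plancherel for `U b (·,t)`.
-/

set_option autoImplicit false

namespace Pool.Agent.H1.C1

open MeasureTheory Set FourierTransform Pool.Agent.H82.KL Pool.Agent.H94.C1
open scoped ENNReal NNReal SchwartzMap

theorem esq (z : ℂ) : ‖z‖ₑ ^ 2 = ENNReal.ofReal (‖z‖ ^ 2) := by
  rw [ENNReal.ofReal_pow (norm_nonneg _), ofReal_norm_eq_enorm]

theorem pf_PLU (hG : T_GRAM) : T_PLU := by
  intro d b t hb
  obtain ⟨hsq, hc, hint, hgram⟩ := hG d b hb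
  have h1 := hgram ((0 : EE d), t) (0, t)
  have h2 : MemLp (fun y : EE d => U b (0 - y, t)) 2 volume := (hint (0, t)).2
  have hi1 : Integrable (fun y : EE d => ‖U b (0 - y, t)‖ ^ 2) :=
    (memLp_two_iff_integrable_sq_norm h2.1).1 h2
  have hi2 : Integrable (fun ξ : EE d => ‖b ξ‖ ^ 2) := by
    have h := (hsq.1.continuous.integrable_of_hasCompactSupport (μ := volume) hsq.2.1).re
    exact h.congr (Filter.Eventually.of_forall fun ξ => Complex.ofReal_re _)
  have h3 : ∫ y : EE d, ‖U b (0 - y, t)‖ ^ 2 = ∫ ξ, ‖b ξ‖ ^ 2 := by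
    have h4 : ((∫ y : EE d, ‖U b (0 - y, t)‖ ^ 2 : ℝ) : ℂ) = ((∫ ξ, ‖b ξ‖ ^ 2 : ℝ) : ℂ) := by
      rw [← integral_complex_ofReal, ← integral_complex_ofReal]
      have e1 : ∀ y : EE d, U b (0 - y, t) * (starRingEnd ℂ) (U b (0 - y, t)) =
          ((‖U b (0 - y, t)‖ ^ 2 : ℝ) : ℂ) := by
        intro y
        rw [Complex.mul_conj, Complex.normSq_eq_norm_sq]
      have e2 : U (Pool.Agent.H82.KL.sq b) (((0 : EE d), t) - (0, t)) = ∫ ξ, ((‖b ξ‖ ^ 2 : ℝ) : ℂ) := by
        unfold U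
        refine integral_congr_ae (Filter.Eventually.of_forall fun ξ => ?_)
        simp [e, Pool.Agent.H82.KL.sq]
      rw [← e2, ← h1]
      refine integral_congr_ae (Filter.Eventually.of_forall fun y => ?_)
      exact (e1 y).symm
    exact_mod_cast h4
  have h5 : ∫⁻ x : EE d, ‖U b (x, t)‖ₑ ^ 2 = ∫⁻ y : EE d, ‖U b (0 - y, t)‖ₑ ^ 2 := by
    have := lintegral_neg_eq_self (μ := (volume : Measure (EE d))) (fun x : EE d => ‖U b (x, t)‖ₑ ^ 2)
    rw [← this]
    simp only [zero_sub]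
  rw [h5]
  simp only [esq]
  rw [← ofReal_integral_eq_lintegral_ofReal hi1 (Filter.Eventually.of_forall fun y => by positivity),
    ← ofReal_integral_eq_lintegral_ofReal hi2 (Filter.Eventually.of_forall fun y => by positivity),
    h3]

end Pool.Agent.H1.C1
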